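import Pool.Agent.Helper35.HC.StA

/-! # Project HC, module PI3: the form of `P3`, any codimension -/

set_option autoImplicit false

namespace Pool.Agent.Helper89.HC

open Helper35.HC Helper35.HSF Helper35.MS Helper35.PI Helper35.PI2 Helper32.CL
open scoped ContDiff Manifold Topology ENNReal BigOperators
open MeasureTheory Set Filter

private theorem cs4 {n : ℕ} (f g : Fin n → Fin n → Fin n → Fin n → ℝ) :
    (∑ i, ∑ j, ∑ k, ∑ l, f i j k l * g i j k l) ^ 2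
      ≤ (∑ i, ∑ j, ∑ k, ∑ l, f i j k l ^ 2) * (∑ i, ∑ j, ∑ k, ∑ l, g i j k l ^ 2) := by
  have h := Finset.sum_mul_sq_le_sq_mul_sq (Finset.univ : Finset (Fin n × Fin n × Fin n × Fin n))
    (fun p => f p.1 p.2.1 p.2.2.1 p.2.2.2) (fun p => g p.1 p.2.1 p.2.2.1 p.2.2.2)
  simpa only [Fintype.sum_prod_type] using h

private theorem bd4 {n : ℕ} (f g s : Fin n → Fin n → Fin n → Fin n → ℝ) (F G R : ℝ)
    (hF : ∑ i, ∑ j, ∑ k, ∑ l, f i j k l ^ 2 ≤ F) (hG : ∑ i, ∑ j, ∑ k, ∑ l, g i j k l ^ 2 ≤ G)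
    (hF0 : 0 ≤ F) (hR : 0 ≤ R) (hFG : F * G ≤ R ^ 2)
    (hs : ∀ i j k l, |s i j k l| ≤ f i j k l * g i j k l) :
    |∑ i, ∑ j, ∑ k, ∑ l, s i j k l| ≤ R := by
  have h1 : |∑ i, ∑ j, ∑ k, ∑ l, s i j k l| ≤ ∑ i, ∑ j, ∑ k, ∑ l, f i j k l * g i j k l := by
    refine (Finset.abs_sum_le_sum_abs _ _).trans (Finset.sum_le_sum fun i _ => ?_)
    refine (Finset.abs_sum_le_sum_abs _ _).trans (Finset.sum_le_sum fun j _ => ?_)
    refine (Finset.abs_sum_le_sum_abs _ _).trans (Finset.sum_le_sum fun k _ => ?_)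
    exact (Finset.abs_sum_le_sum_abs _ _).trans (Finset.sum_le_sum fun l _ => hs i j k l)
  have hg0 : 0 ≤ ∑ i, ∑ j, ∑ k, ∑ l, g i j k l ^ 2 :=
    Finset.sum_nonneg fun i _ => Finset.sum_nonneg fun j _ =>
      Finset.sum_nonneg fun k _ => Finset.sum_nonneg fun l _ => sq_nonneg _
  have h2 : (∑ i, ∑ j, ∑ k, ∑ l, f i j k l * g i j k l) ^ 2 ≤ R ^ 2 :=
    (cs4 f g).trans ((mul_le_mul hF hG hg0 hF0).trans hFG)
  exact h1.trans ((le_abs_self _).trans (abs_le_of_sq_le_sq h2 hR))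

private theorem sA {n : ℕ} (x y : Fin n → Fin n → ℝ) :
    ∑ i, ∑ j, ∑ k, ∑ l, (x i j * y k l) ^ 2
      = (∑ i, ∑ j, x i j ^ 2) * (∑ i, ∑ j, y i j ^ 2) := by
  simp only [mul_pow, ← Finset.mul_sum, ← Finset.sum_mul]

private theorem sB {n : ℕ} (z w : Fin n → Fin n → ℝ) :
    ∑ i, ∑ j, ∑ k, ∑ l, (z j k * w l i) ^ 2
      = (∑ i, ∑ j, z i j ^ 2) * (∑ i, ∑ j, w i j ^ 2) := by
  rw [← sA z w, Finset.sum_comm]
  refine Finset.sum_congr rfl fun j _ => ?_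
  rw [Finset.sum_comm]
  refine Finset.sum_congr rfl fun k _ => ?_
  rw [Finset.sum_comm]

/-- cyclic products -/
private theorem cyc {n : ℕ} (x y z w : Fin n → Fin n → ℝ) (s : Fin n → Fin n → Fin n → Fin n → ℝ)
    (a b R : ℝ) (hR : 0 ≤ R)
    (h1 : (∑ i, ∑ j, x i j ^ 2) * (∑ i, ∑ j, y i j ^ 2) = a)
    (h2 : (∑ i, ∑ j, z i j ^ 2) * (∑ i, ∑ j, w i j ^ 2) = b) (hab : a * b = R ^ 2)
    (hs : ∀ i j k l, |s i j k l| ≤ (x i j * y k l) * (z j k * w l i)) :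
    |∑ i, ∑ j, ∑ k, ∑ l, s i j k l| ≤ R := by
  refine bd4 (fun i j k l => x i j * y k l) (fun i j k l => z j k * w l i) s a b R
    ((sA x y).trans h1).le ((sB z w).trans h2).le ?_ hR hab.le hs
  rw [← h1]
  exact mul_nonneg (Finset.sum_nonneg fun i _ => Finset.sum_nonneg fun j _ => sq_nonneg _)
    (Finset.sum_nonneg fun i _ => Finset.sum_nonneg fun j _ => sq_nonneg _)

private theorem sqB {n N : ℕ} (K : Fin n → Fin n → ℝ) (A B : Fin n → Fin n → EE N)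
    (hin : ∀ i j k l, (inner ℝ (A i j) (A k l) : ℝ) = K i j * K k l + inner ℝ (B i j) (B k l))
    (a b : ℝ) (ha : ∑ i, ∑ j, K i j ^ 2 = a) (hb : ∑ i, ∑ j, ‖B i j‖ ^ 2 = b) :
    Sq A ≤ a ^ 2 + 10 * (a * b) + 5 * b ^ 2 := by
  have ha0 : 0 ≤ a := by
    rw [← ha]
    exact Finset.sum_nonneg fun i _ => Finset.sum_nonneg fun j _ => sq_nonneg _
  have hb0 : 0 ≤ b := by
    rw [← hb]
    exact Finset.sum_nonneg fun i _ => Finset.sum_nonneg fun j _ => sq_nonneg _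
  have haa : ∑ i, ∑ j, |K i j| ^ 2 = a := by simpa only [sq_abs] using ha
  have hBB : ∀ i j k l, |(inner ℝ (B i j) (B k l) : ℝ)| ≤ ‖B i j‖ * ‖B k l‖ := fun i j k l =>
    abs_real_inner_le_norm _ _
  -- the nine sums
  have e0 : ∑ i, ∑ j, ∑ k, ∑ l, (K i j * K k l) ^ 2 = a ^ 2 := by rw [sA, ha]; ring
  have e1 : |∑ i, ∑ j, ∑ k, ∑ l, (K i j * K k l) * (inner ℝ (B i j) (B k l) : ℝ)| ≤ a * b := by
    refine bd4 (fun i j k l => |K i j| * |K k l|) (fun i j k l => ‖B i j‖ * ‖B k l‖) _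
      (a * a) (b * b) (a * b) ?_ ?_ (by positivity) (by positivity) (by ring_nf; exact le_rfl) ?_
    · rw [sA (fun i j => |K i j|) (fun i j => |K i j|), haa]
    · rw [sA (fun i j => ‖B i j‖) (fun i j => ‖B i j‖), hb]
    · intro i j k l
      rw [abs_mul, abs_mul]
      exact mul_le_mul_of_nonneg_left (hBB i j k l) (by positivity)
  have e2 : |∑ i, ∑ j, ∑ k, ∑ l, (inner ℝ (B i j) (B k l) : ℝ) ^ 2| ≤ b ^ 2 := by
    refine bd4 (fun i j k l => ‖B i j‖ * ‖B k l‖) (fun i j k l => ‖B i j‖ * ‖B k l‖) _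
      (b * b) (b * b) (b ^ 2) ?_ ?_ (by positivity) (by positivity) (by ring_nf; exact le_rfl) ?_
    · rw [sA (fun i j => ‖B i j‖) (fun i j => ‖B i j‖), hb]
    · rw [sA (fun i j => ‖B i j‖) (fun i j => ‖B i j‖), hb]
    · intro i j k l
      rw [abs_pow, pow_two]
      exact mul_le_mul (hBB i j k l) (hBB i j k l) (abs_nonneg _) (by positivity)
  have e3 : |∑ i, ∑ j, ∑ k, ∑ l, (K i j * K j k) * (inner ℝ (B k l) (B l i) : ℝ)| ≤ a * b := by
    refine cyc (fun i j => |K i j|) (fun i j => ‖B i j‖) (fun i j => |K i j|) (fun i j => ‖B i j‖)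
      _ (a * b) (a * b) (a * b) (by positivity) (by rw [haa, hb]) (by rw [haa, hb]) (by ring) ?_
    intro i j k l
    rw [abs_mul, abs_mul]
    refine (mul_le_mul_of_nonneg_left (hBB k l l i) (by positivity)).trans (le_of_eq ?_)
    ring
  have e4 : |∑ i, ∑ j, ∑ k, ∑ l, (inner ℝ (B i j) (B j k) : ℝ) * (K k l * K l i)| ≤ a * b := by
    refine cyc (fun i j => ‖B i j‖) (fun i j => |K i j|) (fun i j => ‖B i j‖) (fun i j => |K i j|)
      _ (b * a) (b * a) (a * b) (by positivity) (by rw [haa, hb]) (by rw [haa, hb]) (by ring) ?_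
    intro i j k l
    rw [abs_mul, abs_mul]
    refine (mul_le_mul_of_nonneg_right (hBB i j j k) (by positivity)).trans (le_of_eq ?_)
    ring
  have e5 : |∑ i, ∑ j, ∑ k, ∑ l, (inner ℝ (B i j) (B j k) : ℝ) * (inner ℝ (B k l) (B l i) : ℝ)|
      ≤ b ^ 2 := by
    refine cyc (fun i j => ‖B i j‖) (fun i j => ‖B i j‖) (fun i j => ‖B i j‖) (fun i j => ‖B i j‖)
      _ (b * b) (b * b) (b ^ 2) (by positivity) (by rw [hb]) (by rw [hb]) (by ring) ?_
    intro i j k l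
    rw [abs_mul]
    refine (mul_le_mul (hBB i j j k) (hBB k l l i) (abs_nonneg _) (by positivity)).trans
      (le_of_eq ?_)
    ring
  have e6 : |∑ i, ∑ j, ∑ k, ∑ l, (K i j * K k l) * (inner ℝ (B j k) (B l i) : ℝ)| ≤ a * b := by
    refine cyc (fun i j => |K i j|) (fun i j => |K i j|) (fun i j => ‖B i j‖) (fun i j => ‖B i j‖)
      _ (a * a) (b * b) (a * b) (by positivity) (by rw [haa]) (by rw [hb]) (by ring) ?_
    intro i j k l
    rw [abs_mul, abs_mul]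
    exact mul_le_mul_of_nonneg_left (hBB j k l i) (by positivity)
  have e7 : |∑ i, ∑ j, ∑ k, ∑ l, (inner ℝ (B i j) (B k l) : ℝ) * (K j k * K l i)| ≤ a * b := by
    refine cyc (fun i j => ‖B i j‖) (fun i j => ‖B i j‖) (fun i j => |K i j|) (fun i j => |K i j|)
      _ (b * b) (a * a) (a * b) (by positivity) (by rw [hb]) (by rw [haa]) (by ring) ?_
    intro i j k l
    rw [abs_mul, abs_mul]
    exact mul_le_mul_of_nonneg_right (hBB i j k l) (by positivity)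
  have e8 : |∑ i, ∑ j, ∑ k, ∑ l, (inner ℝ (B i j) (B k l) : ℝ) * (inner ℝ (B j k) (B l i) : ℝ)|
      ≤ b ^ 2 := by
    refine cyc (fun i j => ‖B i j‖) (fun i j => ‖B i j‖) (fun i j => ‖B i j‖) (fun i j => ‖B i j‖)
      _ (b * b) (b * b) (b ^ 2) (by positivity) (by rw [hb]) (by rw [hb]) (by ring) ?_
    intro i j k l
    rw [abs_mul]
    exact mul_le_mul (hBB i j k l) (hBB j k l i) (abs_nonneg _) (by positivity)
  have hS : Sq A = (∑ i, ∑ j, ∑ k, ∑ l, (K i j * K k l) ^ 2)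
      + 2 * (∑ i, ∑ j, ∑ k, ∑ l, (K i j * K k l) * (inner ℝ (B i j) (B k l) : ℝ))
      + (∑ i, ∑ j, ∑ k, ∑ l, (inner ℝ (B i j) (B k l) : ℝ) ^ 2)
      + 2 * (∑ i, ∑ j, ∑ k, ∑ l, (K i j * K j k) * (inner ℝ (B k l) (B l i) : ℝ))
      + 2 * (∑ i, ∑ j, ∑ k, ∑ l, (inner ℝ (B i j) (B j k) : ℝ) * (K k l * K l i))
      + 2 * (∑ i, ∑ j, ∑ k, ∑ l,
          (inner ℝ (B i j) (B j k) : ℝ) * (inner ℝ (B k l) (B l i) : ℝ))
      - 2 * (∑ i, ∑ j, ∑ k, ∑ l, (K i j * K k l) * (inner ℝ (B j k) (B l i) : ℝ))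
      - 2 * (∑ i, ∑ j, ∑ k, ∑ l, (inner ℝ (B i j) (B k l) : ℝ) * (K j k * K l i))
      - 2 * (∑ i, ∑ j, ∑ k, ∑ l,
          (inner ℝ (B i j) (B k l) : ℝ) * (inner ℝ (B j k) (B l i) : ℝ)) := by
    unfold Sq
    simp only [hin, Finset.mul_sum, ← Finset.sum_add_distrib, ← Finset.sum_sub_distrib]
    refine Finset.sum_congr rfl fun i _ => Finset.sum_congr rfl fun j _ =>
      Finset.sum_congr rfl fun k _ => Finset.sum_congr rfl fun l _ => ?_
    ring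
  rw [hS, e0]
  have f1 := abs_le.1 e1
  have f2 := abs_le.1 e2
  have f3 := abs_le.1 e3
  have f4 := abs_le.1 e4
  have f5 := abs_le.1 e5
  have f6 := abs_le.1 e6
  have f7 := abs_le.1 e7
  have f8 := abs_le.1 e8
  linarith [f1.2, f2.2, f3.2, f4.2, f5.2, f6.1, f7.1, f8.1]

/-- splitting off the direction of `H` -/
private theorem frame {n N : ℕ} (A : Fin n → Fin n → EE N) (hA : SymV A) (h : ℝ) (hh0 : 0 < h)
    (hHH : (inner ℝ (Hv A) (Hv A) : ℝ) = h ^ 2) :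
    ∃ (K : Fin n → Fin n → ℝ) (B : Fin n → Fin n → EE N),
      (∀ i j k l, (inner ℝ (A i j) (A k l) : ℝ) = K i j * K k l + inner ℝ (B i j) (B k l)) ∧
      SymS K ∧ (∀ i j, zz A i j = h * K i j) ∧ ∑ i, K i i = h := by
  refine ⟨fun i j => zz A i j / h, fun i j => A i j - (zz A i j / h ^ 2) • Hv A, ?_, ?_, ?_, ?_⟩
  · intro i j k l
    have h1 : (inner ℝ (A i j) (Hv A) : ℝ) = zz A i j := rfl
    have h2 : (inner ℝ (Hv A) (A k l) : ℝ) = zz A k l := by rw [real_inner_comm]; rfl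
    beta_reduce
    rw [inner_sub_left, inner_sub_right, inner_sub_right, real_inner_smul_left,
      real_inner_smul_left, real_inner_smul_right, real_inner_smul_right, h1, h2, hHH]
    generalize (inner ℝ (A i j) (A k l) : ℝ) = s
    generalize zz A i j = u
    generalize zz A k l = v
    have hne : h ≠ 0 := hh0.ne'
    field_simp
    ring
  · intro i j
    simp only [zz, hA i j]
  · intro i j
    beta_reduce
    generalize zz A i j = u
    have hne : h ≠ 0 := hh0.ne'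
    field_simp
  · have h1 : ∑ i, zz A i i = h ^ 2 := by
      simp only [zz]
      rw [← sum_inner]
      exact hHH
    beta_reduce
    rw [← Finset.sum_div, h1]
    have hne : h ≠ 0 := hh0.ne'
    field_simp

private theorem xA {n N : ℕ} (A B : Fin n → Fin n → EE N) (K : Fin n → Fin n → ℝ)
    (hin : ∀ i j k l, (inner ℝ (A i j) (A k l) : ℝ) = K i j * K k l + inner ℝ (B i j) (B k l)) :
    XX A = (∑ i, ∑ j, K i j ^ 2) + ∑ i, ∑ j, ‖B i j‖ ^ 2 := by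
  unfold XX
  rw [← Finset.sum_add_distrib]
  refine Finset.sum_congr rfl fun i _ => ?_
  rw [← Finset.sum_add_distrib]
  refine Finset.sum_congr rfl fun j _ => ?_
  rw [← real_inner_self_eq_norm_sq, hin, real_inner_self_eq_norm_sq]
  ring

private theorem zA {n N : ℕ} (A : Fin n → Fin n → EE N) (K : Fin n → Fin n → ℝ) (h : ℝ)
    (hh0 : 0 < h) (hzK : ∀ i j, zz A i j = h * K i j) :
    ZZ A / h ^ 2 = ∑ i, ∑ j, K i j ^ 2 := by
  have h1 : ZZ A = h ^ 2 * ∑ i, ∑ j, K i j ^ 2 := by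
    unfold ZZ
    rw [Finset.mul_sum]
    refine Finset.sum_congr rfl fun i _ => ?_
    rw [Finset.mul_sum]
    refine Finset.sum_congr rfl fun j _ => ?_
    rw [hzK]; ring
  rw [h1]
  generalize (∑ i, ∑ j, K i j ^ 2) = s
  have hne : h ≠ 0 := hh0.ne'
  field_simp

private theorem kv {n N : ℕ} (A : Fin n → Fin n → EE N) (K : Fin n → Fin n → ℝ) (h e : ℝ)
    (hh0 : 0 < h) (hzK : ∀ i j, zz A i j = h * K i j)
    (hw : ∀ w : Fin n → ℝ, e * h ^ 2 * (∑ i, w i ^ 2) ≤ inner ℝ (bilV A w w) (Hv A)) :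
    ∀ v : Fin n → ℝ, e * h * (∑ i, v i ^ 2) ≤ ∑ i, ∑ j, K i j * (v i * v j) := by
  intro v
  have h1 : (inner ℝ (bilV A v v) (Hv A) : ℝ) = h * ∑ i, ∑ j, K i j * (v i * v j) := by
    unfold bilV
    rw [sum_inner, Finset.mul_sum]
    refine Finset.sum_congr rfl fun i _ => ?_
    rw [sum_inner, Finset.mul_sum]
    refine Finset.sum_congr rfl fun j _ => ?_
    have h2 : (inner ℝ (A i j) (Hv A) : ℝ) = h * K i j := hzK i j
    rw [real_inner_smul_left, h2]; ring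
  have h3 := hw v
  rw [h1] at h3
  have h4 : h * (e * h * ∑ i, v i ^ 2) ≤ h * ∑ i, ∑ j, K i j * (v i * v j) := by
    refine le_trans (le_of_eq ?_) h3
    ring
  exact le_of_mul_le_mul_left h4 hh0

private theorem aah {n N : ℕ} (A B : Fin n → Fin n → EE N) (K : Fin n → Fin n → ℝ) (h e : ℝ)
    (hh0 : 0 < h) (he : 0 ≤ e) (hKs : SymS K) (hzK : ∀ i j, zz A i j = h * K i j)
    (hin : ∀ i j k l, (inner ℝ (A i j) (A k l) : ℝ) = K i j * K k l + inner ℝ (B i j) (B k l))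
    (hvv : ∀ v : Fin n → ℝ, e * h * (∑ i, v i ^ 2) ≤ ∑ i, ∑ j, K i j * (v i * v j)) :
    h * (∑ i, ∑ j, ∑ k, K i j * K j k * K k i) ≤ AAH A := by
  have hnn : 0 ≤ ∑ k, ∑ l, ∑ m, (inner ℝ (B k l) (B k m) : ℝ) * K m l := by
    refine Finset.sum_nonneg fun k _ => ?_
    have h1 : ∑ l, ∑ m, (inner ℝ (B k l) (B k m) : ℝ) * K m l
        = ∑ c : Fin N, ∑ l, ∑ m, K l m * ((B k l) c * (B k m) c) := by
      rw [Finset.sum_comm (s := (Finset.univ : Finset (Fin N)))]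
      refine Finset.sum_congr rfl fun l _ => ?_
      rw [Finset.sum_comm]
      refine Finset.sum_congr rfl fun m _ => ?_
      rw [PiLp.inner_apply, Finset.sum_mul]
      refine Finset.sum_congr rfl fun c _ => ?_
      rw [hKs m l]
      simp only [RCLike.inner_apply, conj_trivial]
      ring
    rw [h1]
    refine Finset.sum_nonneg fun c _ => ?_
    refine le_trans ?_ (hvv (fun l => (B k l) c))
    have : 0 ≤ ∑ i, (B k i) c ^ 2 := Finset.sum_nonneg fun i _ => sq_nonneg _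
    exact mul_nonneg (mul_nonneg he hh0.le) this
  have h1 : AAH A = h * (∑ i, ∑ j, ∑ k, K i j * K j k * K k i)
      + h * ∑ k, ∑ l, ∑ m, (inner ℝ (B k l) (B k m) : ℝ) * K m l := by
    unfold AAH
    rw [← mul_add, ← Finset.sum_add_distrib, Finset.mul_sum]
    refine Finset.sum_congr rfl fun k _ => ?_
    rw [← Finset.sum_add_distrib, Finset.mul_sum]
    refine Finset.sum_congr rfl fun l _ => ?_
    rw [← Finset.sum_add_distrib, Finset.mul_sum]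
    refine Finset.sum_congr rfl fun m _ => ?_
    rw [hin, hzK, hKs l m, hKs k m]
    ring
  rw [h1]
  have := mul_nonneg hh0.le hnn
  linarith

private theorem fin_ineq (h a b θ c δ' aahv sqv t3 : ℝ) (hh0 : 0 < h ^ 2) (hb0 : 0 ≤ b)
    (q : ℝ) (q0 : 0 ≤ a - q) (hqn : q ≤ h ^ 2) (hθe : θ = a + b - q)
    (hθ : θ ≤ h ^ 2) (hc0 : 0 < c) (hc1 : c ≤ 1) (hδ' : 0 < δ') (hδle : δ' ≤ c / 50)
    (q2 : c * (h ^ 2 * (a - q)) ≤ t3 - a ^ 2) (hA : t3 ≤ aahv)
    (hS : sqv ≤ a ^ 2 + 10 * (a * b) + 5 * b ^ 2) :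
    δ' * h ^ 2 * θ - 1 / δ' * h ^ 2 * b ≤ aahv - sqv := by
  subst hθe
  have hab : a + b ≤ 2 * h ^ 2 := by linarith
  have hmix : 10 * (a * b) + 5 * b ^ 2 ≤ 20 * (h ^ 2 * b) := by
    have := mul_le_mul_of_nonneg_right hab hb0
    nlinarith [sq_nonneg b]
  have hinv : c + 20 ≤ 1 / δ' := by
    rw [le_div_iff₀ hδ']
    have h1 : (c + 20) * δ' ≤ (c + 20) * (c / 50) :=
      mul_le_mul_of_nonneg_left hδle (by positivity)
    nlinarith
  have g1 : δ' * (h ^ 2 * (a + b - q)) ≤ c * (h ^ 2 * (a + b - q)) := by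
    refine mul_le_mul_of_nonneg_right (by linarith) ?_
    refine mul_nonneg hh0.le ?_
    linarith
  have g2 : (c + 20) * (h ^ 2 * b) ≤ 1 / δ' * (h ^ 2 * b) :=
    mul_le_mul_of_nonneg_right hinv (by positivity)
  have g3 : δ' * h ^ 2 * (a + b - q) = δ' * (h ^ 2 * (a + b - q)) := by ring
  have g4 : 1 / δ' * h ^ 2 * b = 1 / δ' * (h ^ 2 * b) := by ring
  rw [g3, g4]
  have g5 : c * (h ^ 2 * (a + b - q)) = c * (h ^ 2 * (a - q)) + c * (h ^ 2 * b) := by ring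
  linarith [hmix, g1, g2, g5]

theorem hPI3 (hALK : StALK) : StPI3 := by
  intro n N hn ε hε hε1
  have hn0 : (0 : ℝ) < n := by
    have : 0 < n := by omega
    exact_mod_cast this
  have hn1 : (1 : ℝ) ≤ n := by
    have : 1 ≤ n := by omega
    exact_mod_cast this
  have hc1 : ε ^ 2 / n ≤ 1 := by
    rw [div_le_one hn0]
    nlinarith
  have hc0 : 0 < ε ^ 2 / n := by positivity
  refine ⟨ε ^ 2 / n / 50, by positivity, by linarith, ?_⟩
  intro A hA hY hθ hw δ' hδ' hδle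
  obtain ⟨h, hh⟩ : ∃ h : ℝ, ‖Hv A‖ = h := ⟨_, rfl⟩
  have hY2 : YY A = h ^ 2 := by rw [← hh]; rfl
  have hh0 : 0 < h := by
    rw [hY2] at hY
    have h1 : 0 ≤ h := by rw [← hh]; exact norm_nonneg _
    exact lt_of_le_of_ne h1 (fun h2 => by rw [← h2] at hY; norm_num at hY)
  have hHH : (inner ℝ (Hv A) (Hv A) : ℝ) = h ^ 2 := by rw [real_inner_self_eq_norm_sq, hh]
  obtain ⟨K, B, hin, hKs, hzK, hKt⟩ := frame A hA h hh0 hHH
  rw [hY2] at hw
  have hvv := kv A K h (ε / n) hh0 hzK hw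
  have hX := xA A B K hin
  have hZ := zA A K h hh0 hzK
  have hq := hALK n hn K (fun _ _ _ => 0) (ε / n) (∑ i, K i i) _ _ _ _ _ hKs
    ⟨fun _ _ _ => rfl, fun _ _ _ => rfl⟩ rfl rfl rfl rfl rfl rfl
  have q0 := hq.1
  have q2 := (hq.2.2.2.2 (by rw [hKt]; exact hh0) (by positivity) (by rw [hKt]; exact hvv)).1
  have hS := sqB K A B hin _ _ rfl rfl
  have hAAH := aah A B K h (ε / n) hh0 (by positivity) hKs hzK hin hvv
  rw [hKt] at q0 q2
  have hα : al2 A = ∑ i, ∑ j, ‖B i j‖ ^ 2 := by rw [al2, hX, hY2, hZ]; ring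
  have hθ' : thA2 A = (∑ i, ∑ j, K i j ^ 2) + (∑ i, ∑ j, ‖B i j‖ ^ 2) - h ^ 2 / n := by
    rw [thA2, hX, hY2]
  have hb0 : 0 ≤ ∑ i, ∑ j, ‖B i j‖ ^ 2 :=
    Finset.sum_nonneg fun i _ => Finset.sum_nonneg fun j _ => sq_nonneg _
  rw [hY2] at hθ
  rw [hα, hY2]
  have hh2 : 0 < h ^ 2 := by positivity
  refine fin_ineq h _ _ _ (ε ^ 2 / n) δ' _ _ _ hh2 hb0 (h ^ 2 / n) q0
    (div_le_self hh2.le hn1) hθ' hθ hc0 hc1 hδ' hδle ?_ hAAH hS
  refine le_trans (le_of_eq ?_) q2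
  generalize (∑ i, ∑ j, K i j ^ 2) = s
  have hne : (n : ℝ) ≠ 0 := hn0.ne'
  field_simp

end Pool.Agent.Helper89.HC
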